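import Pool.Agent.helper32.TRG.Spec

/-!
# Project TRG (MP_561ff4_al): certificate for `D₄` (computer generated)
-/

set_option autoImplicit false

open Finset

namespace Pool.Agent.TRI

open Pool.Agent.EXC

def GK42L : List (List ((Fin 4 → ℤ) × Bool)) := [[(![0, 1, 1, 0], true), (![0, -1, 0, 0], true), (![1, 1, 1, 0], true)],
  [(![1, 1, 1, 0], true), (![0, -1, -1, 0], true), (![0, -1, 0, 0], true)],
  [(![1, 1, 1, 0], true), (![-1, -1, 0, 0], true)],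
  [(![1, 1, 1, 0], false), (![-1, -1, -1, -1], true), (![0, 1, 1, 0], true)]]
def GK42a : Fin 4 → ℤ := ![1, 2, 1, 1]

theorem GK42_0 : Cgr C4 GK42L [GK42a] ![0, 0, 1, 0] := Cgr.com [(![0, 1, 1, 0], true), (![0, -1, 0, 0], true)] [] [(![1, 1, 1, 0], true)] [] ![1, 1, 1, 0] ![-1, -1, 0, 0] _
  (by decide +kernel) (by decide +kernel) (by decide +kernel)
theorem GK42_1 : Cgr C4 GK42L [GK42a] ![0, -1, 0, 0] := Cgr.act _ [(![1, 1, 1, 0], true)] [(![0, -1, 0, 0], true)] ![0, -1, -1, 0] _ GK42_0 (by decide +kernel) (by decide +kernel)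
theorem GK42_2 : Cgr C4 GK42L [GK42a] ![-1, -1, 0, -1] := Cgr.act _ [(![1, 1, 1, 0], false)] [(![0, 1, 1, 0], true)] ![-1, -1, -1, -1] _ GK42_0 (by decide +kernel) (by decide +kernel)
theorem GK42_3 : Cgr C4 GK42L [GK42a] ![0, 1, 1, 0] := Cgr.yy _ GK42a _ GK42_2 (by decide +kernel)
theorem GK42_4 : Cgr C4 GK42L [GK42a] ![1, 1, 1, 0] := Cgr.one [(![0, 1, 1, 0], true), (![0, -1, 0, 0], true)] [] ![1, 1, 1, 0] (by decide +kernel) (by decide +kernel)
  (show ∀ p ∈ [(![0, 1, 1, 0], true), (![0, -1, 0, 0], true)], Cgr C4 GK42L [GK42a] p.1 from List.forall_mem_cons.2 ⟨GK42_3, List.forall_mem_cons.2 ⟨GK42_1, List.forall_mem_nil _⟩⟩)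
theorem GK42_5 : Cgr C4 GK42L [GK42a] ![1, 0, 0, 0] := Cgr.act _ [(![1, 1, 1, 0], true)] [(![0, -1, 0, 0], true)] ![0, -1, -1, 0] _ GK42_4 (by decide +kernel) (by decide +kernel)
theorem GK42_6 : Cgr C4 GK42L [GK42a] ![0, -1, -1, 0] := Cgr.one [(![1, 1, 1, 0], true)] [(![0, -1, 0, 0], true)] ![0, -1, -1, 0] (by decide +kernel) (by decide +kernel)
  (show ∀ p ∈ [(![1, 1, 1, 0], true), (![0, -1, 0, 0], true)], Cgr C4 GK42L [GK42a] p.1 from List.forall_mem_cons.2 ⟨GK42_4, List.forall_mem_cons.2 ⟨GK42_1, List.forall_mem_nil _⟩⟩)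
theorem GK42_7 : Cgr C4 GK42L [GK42a] ![-1, -1, 0, 0] := Cgr.one [(![1, 1, 1, 0], true)] [] ![-1, -1, 0, 0] (by decide +kernel) (by decide +kernel)
  (show ∀ p ∈ [(![1, 1, 1, 0], true)], Cgr C4 GK42L [GK42a] p.1 from List.forall_mem_cons.2 ⟨GK42_4, List.forall_mem_nil _⟩)
theorem GK42_8 : Cgr C4 GK42L [GK42a] ![0, 0, 0, -1] := Cgr.act _ [(![1, 1, 1, 0], false)] [(![0, 1, 1, 0], true)] ![-1, -1, -1, -1] _ GK42_4 (by decide +kernel) (by decide +kernel)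
theorem GK42_9 : Cgr C4 GK42L [GK42a] ![1, 1, 0, 1] := Cgr.yy _ GK42a _ GK42_6 (by decide +kernel)
theorem GK42_10 : Cgr C4 GK42L [GK42a] ![0, 0, 0, 1] := Cgr.add _ _ _ GK42_7 GK42_9 (by decide +kernel)
theorem GK42_11 : Cgr C4 GK42L [GK42a] ![1, 2, 1, 1] := Cgr.add _ _ _ GK42_9 GK42_3 (by decide +kernel)
theorem GK42_12 : Cgr C4 GK42L [GK42a] ![0, 1, 0, 0] := Cgr.act _ [(![1, 1, 1, 0], false)] [(![0, 1, 1, 0], true)] ![-1, -1, -1, -1] _ GK42_11 (by decide +kernel) (by decide +kernel)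
theorem GK42_13 : Cgr C4 GK42L [GK42a] ![0, 0, -1, 0] := Cgr.add _ _ _ GK42_12 GK42_6 (by decide +kernel)
theorem GK42_14 : Cgr C4 GK42L [GK42a] ![-1, 0, 0, 0] := Cgr.add _ _ _ GK42_12 GK42_7 (by decide +kernel)

theorem GK42_all (i : Fin 4) : Cgr C4 GK42L [GK42a] (sr i) ∧ Cgr C4 GK42L [GK42a] (-sr i) := by
  match i with
  | 0 => exact ⟨by rw [show (sr 0 : Fin 4 → ℤ) = ![1, 0, 0, 0] by decide +kernel]; exact GK42_5,
      by rw [show (-sr 0 : Fin 4 → ℤ) = ![-1, 0, 0, 0] by decide +kernel]; exact GK42_14⟩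
  | 1 => exact ⟨by rw [show (sr 1 : Fin 4 → ℤ) = ![0, 1, 0, 0] by decide +kernel]; exact GK42_12,
      by rw [show (-sr 1 : Fin 4 → ℤ) = ![0, -1, 0, 0] by decide +kernel]; exact GK42_1⟩
  | 2 => exact ⟨by rw [show (sr 2 : Fin 4 → ℤ) = ![0, 0, 1, 0] by decide +kernel]; exact GK42_0,
      by rw [show (-sr 2 : Fin 4 → ℤ) = ![0, 0, -1, 0] by decide +kernel]; exact GK42_13⟩
  | 3 => exact ⟨by rw [show (sr 3 : Fin 4 → ℤ) = ![0, 0, 0, 1] by decide +kernel]; exact GK42_10,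
      by rw [show (-sr 3 : Fin 4 → ℤ) = ![0, 0, 0, -1] by decide +kernel]; exact GK42_8⟩

theorem GK42 : Ct2 C4 th4 := by
  rw [show th4 = GK42a by decide +kernel]
  refine ⟨GK42L, rfl, ?_, ?_, GK42_all⟩
  · exact List.forall_mem_cons.2 ⟨⟨![0, 1, 1, 0], ![0, -1, 0, 0], true, true, [(![1, 1, 1, 0], true)], rfl, by decide +kernel, by decide +kernel, by decide +kernel, by decide +kernel, by decide +kernel, Or.inr ⟨![1, 1, 1, 0], true, rfl, by decide +kernel, Or.inr (by decide +kernel)⟩⟩,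
      List.forall_mem_cons.2 ⟨⟨![1, 1, 1, 0], ![0, -1, -1, 0], true, true, [(![0, -1, 0, 0], true)], rfl, by decide +kernel, by decide +kernel, by decide +kernel, by decide +kernel, by decide +kernel, Or.inr ⟨![0, -1, 0, 0], true, rfl, by decide +kernel, Or.inl (by decide +kernel)⟩⟩,
      List.forall_mem_cons.2 ⟨⟨![1, 1, 1, 0], ![-1, -1, 0, 0], true, true, [], rfl, by decide +kernel, by decide +kernel, by decide +kernel, by decide +kernel, by decide +kernel, Or.inl rfl⟩,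
      List.forall_mem_cons.2 ⟨⟨![1, 1, 1, 0], ![-1, -1, -1, -1], false, true, [(![0, 1, 1, 0], true)], rfl, by decide +kernel, by decide +kernel, by decide +kernel, by decide +kernel, by decide +kernel, Or.inr ⟨![0, 1, 1, 0], true, rfl, by decide +kernel, Or.inr (by decide +kernel)⟩⟩,
      List.forall_mem_nil _⟩⟩⟩⟩
  · exact ⟨[], [(![-1, -1, -1, -1], true), (![0, 1, 1, 0], true)], ![1, 1, 1, 0], by decide +kernel, by decide +kernel, by decide +kernel⟩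

end Pool.Agent.TRI
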