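import Pool.Agent.helper32.TRG.Spec

/-!
# Project TRG (MP_561ff4_al): certificate for `D₄` (computer generated)
-/

set_option autoImplicit false

open Finset

namespace Pool.Agent.TRI

open Pool.Agent.EXC

def GK4c2L : List (List ((Fin 4 → ℤ) × Bool)) := [[(![0, 0, 0, -1], true), (![0, 0, -1, 0], true), (![0, 1, 0, 0], true)],
  [(![0, 1, 1, 1], true), (![0, -1, 0, 0], true)],
  [(![-1, -1, -1, 0], true), (![1, 1, 0, 1], true), (![0, -1, -1, 0], true)],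
  [(![0, 1, 1, 1], true), (![0, 1, 0, 0], true), (![-1, 0, 0, 0], true)],
  [(![1, 1, 1, 0], true), (![1, 1, 0, 1], true), (![1, 1, 0, 0], false)]]

theorem GK4c2_0 : Cgr C4 GK4c2L [] ![0, 0, 0, 1] := Cgr.com [] [(![0, -1, 0, 0], true)] [(![-1, -1, -1, 0], true), (![1, 1, 0, 1], true)] [] ![0, 1, 1, 1] ![0, -1, -1, 0] _
  (by decide +kernel) (by decide +kernel) (by decide +kernel)
theorem GK4c2_1 : Cgr C4 GK4c2L [] ![0, 1, 0, 1] := Cgr.act _ [(![0, 1, 1, 1], true)] [(![-1, 0, 0, 0], true)] ![0, 1, 0, 0] _ GK4c2_0 (by decide +kernel) (by decide +kernel)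
theorem GK4c2_2 : Cgr C4 GK4c2L [] ![0, 1, 0, 0] := Cgr.act _ [] [(![0, 0, -1, 0], true), (![0, 1, 0, 0], true)] ![0, 0, 0, -1] _ GK4c2_1 (by decide +kernel) (by decide +kernel)
theorem GK4c2_3 : Cgr C4 GK4c2L [] ![0, 0, -1, 0] := Cgr.act _ [(![-1, -1, -1, 0], true), (![1, 1, 0, 1], true)] [] ![0, -1, -1, 0] _ GK4c2_2 (by decide +kernel) (by decide +kernel)
theorem GK4c2_4 : Cgr C4 GK4c2L [] ![0, 0, 0, -1] := Cgr.one [] [(![0, 0, -1, 0], true), (![0, 1, 0, 0], true)] ![0, 0, 0, -1] (by decide +kernel) (by decide +kernel)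
  (show ∀ p ∈ [(![0, 0, -1, 0], true), (![0, 1, 0, 0], true)], Cgr C4 GK4c2L [] p.1 from List.forall_mem_cons.2 ⟨GK4c2_3, List.forall_mem_cons.2 ⟨GK4c2_2, List.forall_mem_nil _⟩⟩)
theorem GK4c2_5 : Cgr C4 GK4c2L [] ![1, 1, 0, 0] := Cgr.act _ [] [(![1, 1, 0, 1], true), (![1, 1, 0, 0], false)] ![1, 1, 1, 0] _ GK4c2_3 (by decide +kernel) (by decide +kernel)
theorem GK4c2_6 : Cgr C4 GK4c2L [] ![0, 1, 1, 0] := Cgr.act _ [] [(![0, 1, 0, 0], true), (![-1, 0, 0, 0], true)] ![0, 1, 1, 1] _ GK4c2_4 (by decide +kernel) (by decide +kernel)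
theorem GK4c2_7 : Cgr C4 GK4c2L [] ![0, 1, 1, 1] := Cgr.add _ _ _ GK4c2_6 GK4c2_0 (by decide +kernel)
theorem GK4c2_8 : Cgr C4 GK4c2L [] ![0, 0, 1, 0] := Cgr.act _ [(![0, 1, 1, 1], true)] [] ![0, -1, 0, 0] _ GK4c2_6 (by decide +kernel) (by decide +kernel)
theorem GK4c2_9 : Cgr C4 GK4c2L [] ![0, -1, 0, 0] := Cgr.one [(![0, 1, 1, 1], true)] [] ![0, -1, 0, 0] (by decide +kernel) (by decide +kernel)
  (show ∀ p ∈ [(![0, 1, 1, 1], true)], Cgr C4 GK4c2L [] p.1 from List.forall_mem_cons.2 ⟨GK4c2_7, List.forall_mem_nil _⟩)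
theorem GK4c2_10 : Cgr C4 GK4c2L [] ![-1, 0, 0, 0] := Cgr.one [(![0, 1, 1, 1], true), (![0, 1, 0, 0], true)] [] ![-1, 0, 0, 0] (by decide +kernel) (by decide +kernel)
  (show ∀ p ∈ [(![0, 1, 1, 1], true), (![0, 1, 0, 0], true)], Cgr C4 GK4c2L [] p.1 from List.forall_mem_cons.2 ⟨GK4c2_7, List.forall_mem_cons.2 ⟨GK4c2_2, List.forall_mem_nil _⟩⟩)
theorem GK4c2_11 : Cgr C4 GK4c2L [] ![1, 0, 0, 0] := Cgr.add _ _ _ GK4c2_9 GK4c2_5 (by decide +kernel)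

theorem GK4c2_all (i : Fin 4) : Cgr C4 GK4c2L [] (sr i) ∧ Cgr C4 GK4c2L [] (-sr i) := by
  match i with
  | 0 => exact ⟨by rw [show (sr 0 : Fin 4 → ℤ) = ![1, 0, 0, 0] by decide +kernel]; exact GK4c2_11,
      by rw [show (-sr 0 : Fin 4 → ℤ) = ![-1, 0, 0, 0] by decide +kernel]; exact GK4c2_10⟩
  | 1 => exact ⟨by rw [show (sr 1 : Fin 4 → ℤ) = ![0, 1, 0, 0] by decide +kernel]; exact GK4c2_2,
      by rw [show (-sr 1 : Fin 4 → ℤ) = ![0, -1, 0, 0] by decide +kernel]; exact GK4c2_9⟩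
  | 2 => exact ⟨by rw [show (sr 2 : Fin 4 → ℤ) = ![0, 0, 1, 0] by decide +kernel]; exact GK4c2_8,
      by rw [show (-sr 2 : Fin 4 → ℤ) = ![0, 0, -1, 0] by decide +kernel]; exact GK4c2_3⟩
  | 3 => exact ⟨by rw [show (sr 3 : Fin 4 → ℤ) = ![0, 0, 0, 1] by decide +kernel]; exact GK4c2_0,
      by rw [show (-sr 3 : Fin 4 → ℤ) = ![0, 0, 0, -1] by decide +kernel]; exact GK4c2_4⟩

theorem GK4c2 : Ct4 2 := by
  refine ⟨GK4c2L, rfl, ?_, ?_, GK4c2_all⟩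
  · exact List.forall_mem_cons.2 ⟨⟨![0, 0, 0, -1], ![0, 0, -1, 0], by unfold Kl4; decide +kernel, Or.inr ⟨![0, 1, 0, 0], true, by decide +kernel, by decide +kernel, by decide +kernel, rfl⟩⟩,
      List.forall_mem_cons.2 ⟨⟨![0, 1, 1, 1], ![0, -1, 0, 0], by unfold Kl4; decide +kernel, Or.inl rfl⟩,
      List.forall_mem_cons.2 ⟨⟨![-1, -1, -1, 0], ![1, 1, 0, 1], by unfold Kl4; decide +kernel, Or.inr ⟨![0, -1, -1, 0], true, by decide +kernel, by decide +kernel, by decide +kernel, rfl⟩⟩,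
      List.forall_mem_cons.2 ⟨⟨![0, 1, 1, 1], ![0, 1, 0, 0], by unfold Kl4; decide +kernel, Or.inr ⟨![-1, 0, 0, 0], true, by decide +kernel, by decide +kernel, by decide +kernel, rfl⟩⟩,
      List.forall_mem_cons.2 ⟨⟨![1, 1, 1, 0], ![1, 1, 0, 1], by unfold Kl4; decide +kernel, Or.inr ⟨![1, 1, 0, 0], false, by decide +kernel, by decide +kernel, by decide +kernel, rfl⟩⟩,
      List.forall_mem_nil _⟩⟩⟩⟩⟩
  · exact ⟨![1, 1, 1, 0], ![1, 1, 0, 1], ![1, 1, 0, 0], by decide +kernel, by decide +kernel, by decide +kernel, by decide +kernel⟩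

end Pool.Agent.TRI
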