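import Pool.Agent.helper32.TRG.Spec

/-!
# Project TRG (MP_561ff4_al): certificate for `D₄` (computer generated)
-/

set_option autoImplicit false

open Finset

namespace Pool.Agent.TRI

open Pool.Agent.EXC

def GK4c3L : List (List ((Fin 4 → ℤ) × Bool)) := [[(![1, 1, 0, 1], true), (![0, -1, 0, 0], true)],
  [(![-1, 0, 0, 0], true), (![0, 0, 0, 1], true)],
  [(![1, 1, 1, 0], true), (![0, -1, -1, -1], true), (![0, -1, 0, -1], true)],
  [(![1, 1, 0, 0], true), (![0, 1, 0, 1], true), (![0, 0, -1, 0], true)],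
  [(![0, 0, 1, 0], true), (![1, 2, 1, 1], true), (![1, 1, 1, 0], false)]]

theorem GK4c3_0 : Cgr C4 GK4c3L [] ![1, 0, 0, 0] := Cgr.com [] [(![0, -1, 0, 0], true)] [(![1, 1, 1, 0], true), (![0, -1, -1, -1], true)] [] ![1, 1, 0, 1] ![0, -1, 0, -1] _
  (by decide +kernel) (by decide +kernel) (by decide +kernel)
theorem GK4c3_1 : Cgr C4 GK4c3L [] ![1, 1, 0, 1] := Cgr.act _ [(![1, 1, 0, 0], true)] [(![0, 0, -1, 0], true)] ![0, 1, 0, 1] _ GK4c3_0 (by decide +kernel) (by decide +kernel)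
theorem GK4c3_2 : Cgr C4 GK4c3L [] ![0, -1, 0, 0] := Cgr.one [(![1, 1, 0, 1], true)] [] ![0, -1, 0, 0] (by decide +kernel) (by decide +kernel)
  (show ∀ p ∈ [(![1, 1, 0, 1], true)], Cgr C4 GK4c3L [] p.1 from List.forall_mem_cons.2 ⟨GK4c3_1, List.forall_mem_nil _⟩)
theorem GK4c3_3 : Cgr C4 GK4c3L [] ![0, 1, 0, 1] := Cgr.act _ [] [(![0, 0, 0, 1], true)] ![-1, 0, 0, 0] _ GK4c3_1 (by decide +kernel) (by decide +kernel)
theorem GK4c3_4 : Cgr C4 GK4c3L [] ![0, 0, 0, 1] := Cgr.add _ _ _ GK4c3_2 GK4c3_3 (by decide +kernel)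
theorem GK4c3_5 : Cgr C4 GK4c3L [] ![-1, 0, 0, 0] := Cgr.one [] [(![0, 0, 0, 1], true)] ![-1, 0, 0, 0] (by decide +kernel) (by decide +kernel)
  (show ∀ p ∈ [(![0, 0, 0, 1], true)], Cgr C4 GK4c3L [] p.1 from List.forall_mem_cons.2 ⟨GK4c3_4, List.forall_mem_nil _⟩)
theorem GK4c3_6 : Cgr C4 GK4c3L [] ![0, 1, 0, 0] := Cgr.act _ [] [(![0, 1, 0, 1], true), (![0, 0, -1, 0], true)] ![1, 1, 0, 0] _ GK4c3_5 (by decide +kernel) (by decide +kernel)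
theorem GK4c3_7 : Cgr C4 GK4c3L [] ![1, 1, 0, 0] := Cgr.add _ _ _ GK4c3_6 GK4c3_0 (by decide +kernel)
theorem GK4c3_8 : Cgr C4 GK4c3L [] ![0, 0, 0, -1] := Cgr.act _ [(![1, 1, 1, 0], true), (![0, -1, -1, -1], true)] [] ![0, -1, 0, -1] _ GK4c3_6 (by decide +kernel) (by decide +kernel)
theorem GK4c3_9 : Cgr C4 GK4c3L [] ![0, 1, 1, 0] := Cgr.act _ [] [(![1, 2, 1, 1], true), (![1, 1, 1, 0], false)] ![0, 0, 1, 0] _ GK4c3_6 (by decide +kernel) (by decide +kernel)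
theorem GK4c3_10 : Cgr C4 GK4c3L [] ![0, 0, -1, 0] := Cgr.one [(![1, 1, 0, 0], true), (![0, 1, 0, 1], true)] [] ![0, 0, -1, 0] (by decide +kernel) (by decide +kernel)
  (show ∀ p ∈ [(![1, 1, 0, 0], true), (![0, 1, 0, 1], true)], Cgr C4 GK4c3L [] p.1 from List.forall_mem_cons.2 ⟨GK4c3_7, List.forall_mem_cons.2 ⟨GK4c3_3, List.forall_mem_nil _⟩⟩)
theorem GK4c3_11 : Cgr C4 GK4c3L [] ![0, 0, 1, 0] := Cgr.add _ _ _ GK4c3_9 GK4c3_2 (by decide +kernel)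

theorem GK4c3_all (i : Fin 4) : Cgr C4 GK4c3L [] (sr i) ∧ Cgr C4 GK4c3L [] (-sr i) := by
  match i with
  | 0 => exact ⟨by rw [show (sr 0 : Fin 4 → ℤ) = ![1, 0, 0, 0] by decide +kernel]; exact GK4c3_0,
      by rw [show (-sr 0 : Fin 4 → ℤ) = ![-1, 0, 0, 0] by decide +kernel]; exact GK4c3_5⟩
  | 1 => exact ⟨by rw [show (sr 1 : Fin 4 → ℤ) = ![0, 1, 0, 0] by decide +kernel]; exact GK4c3_6,
      by rw [show (-sr 1 : Fin 4 → ℤ) = ![0, -1, 0, 0] by decide +kernel]; exact GK4c3_2⟩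
  | 2 => exact ⟨by rw [show (sr 2 : Fin 4 → ℤ) = ![0, 0, 1, 0] by decide +kernel]; exact GK4c3_11,
      by rw [show (-sr 2 : Fin 4 → ℤ) = ![0, 0, -1, 0] by decide +kernel]; exact GK4c3_10⟩
  | 3 => exact ⟨by rw [show (sr 3 : Fin 4 → ℤ) = ![0, 0, 0, 1] by decide +kernel]; exact GK4c3_4,
      by rw [show (-sr 3 : Fin 4 → ℤ) = ![0, 0, 0, -1] by decide +kernel]; exact GK4c3_8⟩

theorem GK4c3 : Ct4 3 := by
  refine ⟨GK4c3L, rfl, ?_, ?_, GK4c3_all⟩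
  · exact List.forall_mem_cons.2 ⟨⟨![1, 1, 0, 1], ![0, -1, 0, 0], by unfold Kl4; decide +kernel, Or.inl rfl⟩,
      List.forall_mem_cons.2 ⟨⟨![-1, 0, 0, 0], ![0, 0, 0, 1], by unfold Kl4; decide +kernel, Or.inl rfl⟩,
      List.forall_mem_cons.2 ⟨⟨![1, 1, 1, 0], ![0, -1, -1, -1], by unfold Kl4; decide +kernel, Or.inr ⟨![0, -1, 0, -1], true, by decide +kernel, by decide +kernel, by decide +kernel, rfl⟩⟩,
      List.forall_mem_cons.2 ⟨⟨![1, 1, 0, 0], ![0, 1, 0, 1], by unfold Kl4; decide +kernel, Or.inr ⟨![0, 0, -1, 0], true, by decide +kernel, by decide +kernel, by decide +kernel, rfl⟩⟩,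
      List.forall_mem_cons.2 ⟨⟨![0, 0, 1, 0], ![1, 2, 1, 1], by unfold Kl4; decide +kernel, Or.inr ⟨![1, 1, 1, 0], false, by decide +kernel, by decide +kernel, by decide +kernel, rfl⟩⟩,
      List.forall_mem_nil _⟩⟩⟩⟩⟩
  · exact ⟨![0, 0, 1, 0], ![1, 2, 1, 1], ![1, 1, 1, 0], by decide +kernel, by decide +kernel, by decide +kernel, by decide +kernel⟩

end Pool.Agent.TRI
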