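import Pool.Agent.helper32.TRG.Spec

/-!
# Project TRG (MP_561ff4_al): certificate for `D₄` (computer generated)
-/

set_option autoImplicit false

open Finset

namespace Pool.Agent.TRI

open Pool.Agent.EXC

def GK4c4L : List (List ((Fin 4 → ℤ) × Bool)) := [[(![-1, -1, -1, 0], true), (![0, 1, 0, 0], true), (![0, 0, -1, 0], true)],
  [(![-1, 0, 0, 0], true), (![0, 0, 1, 0], true)],
  [(![0, -1, -1, -1], true), (![1, 1, 0, 1], true), (![1, 1, 0, 0], true)],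
  [(![0, -1, -1, 0], true), (![-1, -1, 0, 0], true), (![0, 0, 0, 1], true)],
  [(![0, -1, -1, -1], true), (![-1, -1, 0, -1], true), (![-1, -2, -1, -1], false)]]

theorem GK4c4_0 : Cgr C4 GK4c4L [] ![0, 0, -1, 0] := Cgr.com [] [(![0, 1, 0, 0], true), (![0, 0, -1, 0], true)] [(![0, -1, -1, -1], true), (![1, 1, 0, 1], true)] [] ![-1, -1, -1, 0] ![1, 1, 0, 0] _
  (by decide +kernel) (by decide +kernel) (by decide +kernel)
theorem GK4c4_1 : Cgr C4 GK4c4L [] ![-1, -1, -1, 0] := Cgr.act _ [(![0, -1, -1, 0], true)] [(![0, 0, 0, 1], true)] ![-1, -1, 0, 0] _ GK4c4_0 (by decide +kernel) (by decide +kernel)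
theorem GK4c4_2 : Cgr C4 GK4c4L [] ![0, 1, 0, 0] := Cgr.one [(![-1, -1, -1, 0], true)] [(![0, 0, -1, 0], true)] ![0, 1, 0, 0] (by decide +kernel) (by decide +kernel)
  (show ∀ p ∈ [(![-1, -1, -1, 0], true), (![0, 0, -1, 0], true)], Cgr C4 GK4c4L [] p.1 from List.forall_mem_cons.2 ⟨GK4c4_1, List.forall_mem_cons.2 ⟨GK4c4_0, List.forall_mem_nil _⟩⟩)
theorem GK4c4_3 : Cgr C4 GK4c4L [] ![-1, -1, 0, 0] := Cgr.act _ [(![-1, 0, 0, 0], true)] [] ![0, 0, 1, 0] _ GK4c4_1 (by decide +kernel) (by decide +kernel)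
theorem GK4c4_4 : Cgr C4 GK4c4L [] ![-1, 0, 0, 0] := Cgr.add _ _ _ GK4c4_2 GK4c4_3 (by decide +kernel)
theorem GK4c4_5 : Cgr C4 GK4c4L [] ![0, 0, 1, 0] := Cgr.one [(![-1, 0, 0, 0], true)] [] ![0, 0, 1, 0] (by decide +kernel) (by decide +kernel)
  (show ∀ p ∈ [(![-1, 0, 0, 0], true)], Cgr C4 GK4c4L [] p.1 from List.forall_mem_cons.2 ⟨GK4c4_4, List.forall_mem_nil _⟩)
theorem GK4c4_6 : Cgr C4 GK4c4L [] ![0, -1, 0, 0] := Cgr.act _ [] [(![-1, -1, 0, 0], true), (![0, 0, 0, 1], true)] ![0, -1, -1, 0] _ GK4c4_5 (by decide +kernel) (by decide +kernel)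
theorem GK4c4_7 : Cgr C4 GK4c4L [] ![0, -1, 0, -1] := Cgr.act _ [] [(![-1, -1, 0, -1], true), (![-1, -2, -1, -1], false)] ![0, -1, -1, -1] _ GK4c4_5 (by decide +kernel) (by decide +kernel)
theorem GK4c4_8 : Cgr C4 GK4c4L [] ![0, -1, -1, 0] := Cgr.add _ _ _ GK4c4_6 GK4c4_0 (by decide +kernel)
theorem GK4c4_9 : Cgr C4 GK4c4L [] ![1, 0, 0, 0] := Cgr.act _ [(![0, -1, -1, -1], true), (![1, 1, 0, 1], true)] [] ![1, 1, 0, 0] _ GK4c4_6 (by decide +kernel) (by decide +kernel)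
theorem GK4c4_10 : Cgr C4 GK4c4L [] ![0, 0, 0, -1] := Cgr.add _ _ _ GK4c4_7 GK4c4_2 (by decide +kernel)
theorem GK4c4_11 : Cgr C4 GK4c4L [] ![0, 0, 0, 1] := Cgr.one [(![0, -1, -1, 0], true), (![-1, -1, 0, 0], true)] [] ![0, 0, 0, 1] (by decide +kernel) (by decide +kernel)
  (show ∀ p ∈ [(![0, -1, -1, 0], true), (![-1, -1, 0, 0], true)], Cgr C4 GK4c4L [] p.1 from List.forall_mem_cons.2 ⟨GK4c4_8, List.forall_mem_cons.2 ⟨GK4c4_3, List.forall_mem_nil _⟩⟩)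

theorem GK4c4_all (i : Fin 4) : Cgr C4 GK4c4L [] (sr i) ∧ Cgr C4 GK4c4L [] (-sr i) := by
  match i with
  | 0 => exact ⟨by rw [show (sr 0 : Fin 4 → ℤ) = ![1, 0, 0, 0] by decide +kernel]; exact GK4c4_9,
      by rw [show (-sr 0 : Fin 4 → ℤ) = ![-1, 0, 0, 0] by decide +kernel]; exact GK4c4_4⟩
  | 1 => exact ⟨by rw [show (sr 1 : Fin 4 → ℤ) = ![0, 1, 0, 0] by decide +kernel]; exact GK4c4_2,
      by rw [show (-sr 1 : Fin 4 → ℤ) = ![0, -1, 0, 0] by decide +kernel]; exact GK4c4_6⟩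
  | 2 => exact ⟨by rw [show (sr 2 : Fin 4 → ℤ) = ![0, 0, 1, 0] by decide +kernel]; exact GK4c4_5,
      by rw [show (-sr 2 : Fin 4 → ℤ) = ![0, 0, -1, 0] by decide +kernel]; exact GK4c4_0⟩
  | 3 => exact ⟨by rw [show (sr 3 : Fin 4 → ℤ) = ![0, 0, 0, 1] by decide +kernel]; exact GK4c4_11,
      by rw [show (-sr 3 : Fin 4 → ℤ) = ![0, 0, 0, -1] by decide +kernel]; exact GK4c4_10⟩

theorem GK4c4 : Ct4 4 := by
  refine ⟨GK4c4L, rfl, ?_, ?_, GK4c4_all⟩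
  · exact List.forall_mem_cons.2 ⟨⟨![-1, -1, -1, 0], ![0, 1, 0, 0], by unfold Kl4; decide +kernel, Or.inr ⟨![0, 0, -1, 0], true, by decide +kernel, by decide +kernel, by decide +kernel, rfl⟩⟩,
      List.forall_mem_cons.2 ⟨⟨![-1, 0, 0, 0], ![0, 0, 1, 0], by unfold Kl4; decide +kernel, Or.inl rfl⟩,
      List.forall_mem_cons.2 ⟨⟨![0, -1, -1, -1], ![1, 1, 0, 1], by unfold Kl4; decide +kernel, Or.inr ⟨![1, 1, 0, 0], true, by decide +kernel, by decide +kernel, by decide +kernel, rfl⟩⟩,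
      List.forall_mem_cons.2 ⟨⟨![0, -1, -1, 0], ![-1, -1, 0, 0], by unfold Kl4; decide +kernel, Or.inr ⟨![0, 0, 0, 1], true, by decide +kernel, by decide +kernel, by decide +kernel, rfl⟩⟩,
      List.forall_mem_cons.2 ⟨⟨![0, -1, -1, -1], ![-1, -1, 0, -1], by unfold Kl4; decide +kernel, Or.inr ⟨![-1, -2, -1, -1], false, by decide +kernel, by decide +kernel, by decide +kernel, rfl⟩⟩,
      List.forall_mem_nil _⟩⟩⟩⟩⟩
  · exact ⟨![0, -1, -1, -1], ![-1, -1, 0, -1], ![-1, -2, -1, -1], by decide +kernel, by decide +kernel, by decide +kernel, by decide +kernel⟩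

end Pool.Agent.TRI
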