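import Pool.Agent.helper16.TRG.GK41
import Pool.Agent.helper16.TRG.GK42
import Pool.Agent.helper16.TRG.GK4c2
import Pool.Agent.helper16.TRG.GK4c3
import Pool.Agent.helper16.TRG.GK4c4

/-! All certificates for `D₄`: `GK41 : Ct0 C4 (-1)`, `GK42 : Ct2 C4 th4`, `GK4c2 : Ct4 2`, `GK4c3 : Ct4 3`, `GK4c4 : Ct4 4`. -/
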