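import Pool.Agent.helper32.TRG.Spec

/-!
# Project TRG (MP_561ff4_al): certificate for `D₄` (computer generated)
-/

set_option autoImplicit false

open Finset

namespace Pool.Agent.TRI

open Pool.Agent.EXC

def GK41l : List ((Fin 4 → ℤ) × (Fin 4 → ℤ)) := [(![0, -1, -1, -1], ![1, 2, 1, 1]),
  (![0, 0, 0, -1], ![0, 1, 0, 1]),
  (![-1, -1, 0, -1], ![1, 2, 1, 1]),
  (![0, -1, -1, 0], ![0, 1, 1, 1])]
def GK41u : Fin 4 → ℤ := ![1, 1, 1, 1]
def GK41v : Fin 4 → ℤ := ![0, 0, 0, -1]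
def GK41L : List (List ((Fin 4 → ℤ) × Bool)) := (GK41l.map fun p => [(p.1, true), (p.2, true)]) ++ [[(GK41u, true), (GK41v, false)]]

theorem GK41_0 : Cgr C4 GK41L [] ![0, 0, -1, 0] := Cgr.com [] [(![1, 2, 1, 1], true)] [(![0, 0, 0, -1], true)] [] ![0, -1, -1, -1] ![0, 1, 0, 1] _
  (by decide +kernel) (by decide +kernel) (by decide +kernel)
theorem GK41_1 : Cgr C4 GK41L [] ![1, 0, 0, 0] := Cgr.com [] [(![1, 2, 1, 1], true)] [] [(![0, 0, 0, -1], false)] ![0, -1, -1, -1] ![1, 1, 1, 1] _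
  (by decide +kernel) (by decide +kernel) (by decide +kernel)
theorem GK41_2 : Cgr C4 GK41L [] ![-1, 0, 0, 0] := Cgr.com [(![0, 0, 0, -1], true)] [] [] [(![1, 2, 1, 1], true)] ![0, 1, 0, 1] ![-1, -1, 0, -1] _
  (by decide +kernel) (by decide +kernel) (by decide +kernel)
theorem GK41_3 : Cgr C4 GK41L [] ![0, 0, 1, 0] := Cgr.com [] [(![1, 2, 1, 1], true)] [] [(![0, 0, 0, -1], false)] ![-1, -1, 0, -1] ![1, 1, 1, 1] _
  (by decide +kernel) (by decide +kernel) (by decide +kernel)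
theorem GK41_4 : Cgr C4 GK41L [] ![0, 1, 0, 1] := Cgr.act _ [(![0, -1, -1, 0], true)] [] ![0, 1, 1, 1] _ GK41_0 (by decide +kernel) (by decide +kernel)
theorem GK41_5 : Cgr C4 GK41L [] ![0, -1, 0, 0] := Cgr.act _ [] [(![0, 1, 1, 1], true)] ![0, -1, -1, 0] _ GK41_3 (by decide +kernel) (by decide +kernel)
theorem GK41_6 : Cgr C4 GK41L [] ![0, 0, 0, 1] := Cgr.add _ _ _ GK41_4 GK41_5 (by decide +kernel)
theorem GK41_7 : Cgr C4 GK41L [] ![0, 1, 0, 0] := Cgr.act _ [] [(![0, 1, 0, 1], true)] ![0, 0, 0, -1] _ GK41_4 (by decide +kernel) (by decide +kernel)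
theorem GK41_8 : Cgr C4 GK41L [] ![0, 0, 0, -1] := Cgr.one [] [(![0, 1, 0, 1], true)] ![0, 0, 0, -1] (by decide +kernel) (by decide +kernel)
  (show ∀ p ∈ [(![0, 1, 0, 1], true)], Cgr C4 GK41L [] p.1 from List.forall_mem_cons.2 ⟨GK41_4, List.forall_mem_nil _⟩)

theorem GK41_all (i : Fin 4) : Cgr C4 GK41L [] (sr i) ∧ Cgr C4 GK41L [] (-sr i) := by
  match i with
  | 0 => exact ⟨by rw [show (sr 0 : Fin 4 → ℤ) = ![1, 0, 0, 0] by decide +kernel]; exact GK41_1,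
      by rw [show (-sr 0 : Fin 4 → ℤ) = ![-1, 0, 0, 0] by decide +kernel]; exact GK41_2⟩
  | 1 => exact ⟨by rw [show (sr 1 : Fin 4 → ℤ) = ![0, 1, 0, 0] by decide +kernel]; exact GK41_7,
      by rw [show (-sr 1 : Fin 4 → ℤ) = ![0, -1, 0, 0] by decide +kernel]; exact GK41_5⟩
  | 2 => exact ⟨by rw [show (sr 2 : Fin 4 → ℤ) = ![0, 0, 1, 0] by decide +kernel]; exact GK41_3,
      by rw [show (-sr 2 : Fin 4 → ℤ) = ![0, 0, -1, 0] by decide +kernel]; exact GK41_0⟩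
  | 3 => exact ⟨by rw [show (sr 3 : Fin 4 → ℤ) = ![0, 0, 0, 1] by decide +kernel]; exact GK41_6,
      by rw [show (-sr 3 : Fin 4 → ℤ) = ![0, 0, 0, -1] by decide +kernel]; exact GK41_8⟩

theorem GK41 : Ct0 C4 (-1) := ⟨GK41l, GK41u, GK41v, rfl, by decide +kernel, by decide +kernel, by decide +kernel, by decide +kernel, GK41_all⟩

end Pool.Agent.TRI
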